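import Pool.Agent.P8H99.GO.Stm

set_option autoImplicit false

/-!
# Project OD (helper99), packages RNG and INJ
-/

namespace Pool.Agent.P8H78.OD

open Pool.Agent.P8H99.GO
open Pool.Agent.Results.MP_ac85ec_co.FourLevels (IsOrder Lt Covers IsGrade)

variable {n : ℕ} {r : Fin n → Fin n → Prop}

/-- in a finite order every comparable pair is joined by a chain of covers -/
theorem chain (hr : IsOrder r) {x y : Fin n} (hxy : r x y) : Relation.ReflTransGen (Covers r) x y := by
  classical
  obtain ⟨hrefl, hanti, htr⟩ := hr
  have key : ∀ N : ℕ, ∀ x y : Fin n, r x y →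
      (Finset.univ.filter (fun z => Lt r x z ∧ Lt r z y)).card = N →
      Relation.ReflTransGen (Covers r) x y := by
    intro N
    induction N using Nat.strong_induction_on with
    | _ N ih =>
      intro x y hxy hN
      by_cases hne : x = y
      · rw [hne]
      by_cases he : ∃ z, Lt r x z ∧ Lt r z y
      · obtain ⟨z, hxz, hzy⟩ := he
        have hz : z ∈ Finset.univ.filter (fun z => Lt r x z ∧ Lt r z y) :=
          Finset.mem_filter.2 ⟨Finset.mem_univ _, hxz, hzy⟩
        have h1 : (Finset.univ.filter (fun w => Lt r x w ∧ Lt r w z)).card < N := by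
          rw [← hN]
          apply Finset.card_lt_card
          refine Finset.ssubset_iff_subset_ne.2 ⟨?_, ?_⟩
          · intro w hw
            obtain ⟨-, h2, h3⟩ := Finset.mem_filter.1 hw
            refine Finset.mem_filter.2 ⟨Finset.mem_univ _, h2, htr _ _ _ h3.1 hzy.1, ?_⟩
            rintro rfl
            exact h3.2 (hanti _ _ h3.1 hzy.1)
          · intro heq
            rw [← heq] at hz
            exact (Finset.mem_filter.1 hz).2.2.2 rfl
        have h2 : (Finset.univ.filter (fun w => Lt r z w ∧ Lt r w y)).card < N := by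
          rw [← hN]
          apply Finset.card_lt_card
          refine Finset.ssubset_iff_subset_ne.2 ⟨?_, ?_⟩
          · intro w hw
            obtain ⟨-, h2, h3⟩ := Finset.mem_filter.1 hw
            refine Finset.mem_filter.2 ⟨Finset.mem_univ _, ⟨htr _ _ _ hxz.1 h2.1, ?_⟩, h3⟩
            rintro rfl
            exact h2.2 (hanti _ _ h2.1 hxz.1)
          · intro heq
            rw [← heq] at hz
            exact (Finset.mem_filter.1 hz).2.1.2 rfl
        exact (ih _ h1 x z hxz.1 rfl).trans (ih _ h2 z y hzy.1 rfl)
      · exact Relation.ReflTransGen.single ⟨⟨hxy, hne⟩, he⟩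
  exact key _ x y hxy rfl

theorem chain_iff (hr : IsOrder r) (x y : Fin n) :
    r x y ↔ Relation.ReflTransGen (Covers r) x y := by
  refine ⟨chain hr, fun h => ?_⟩
  induction h with
  | refl => exact hr.1 x
  | tail _ hbc ih => exact hr.2.2 _ _ _ ih hbc.1.1

theorem inj : S_INJ := by
  intro n r r' hr hr' h
  have hc : Covers r = Covers r' := by
    funext p q
    exact propext (h p q)
  funext x y
  rw [chain_iff hr, chain_iff hr', hc]

theorem rng : S_RNG := by
  intro k n r g hr hg hk
  -- values along chains
  have hA : ∀ x y, r x y → ∀ m, g x ≤ m → m ≤ g y → m ∈ Set.range g := by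
    intro x y hxy
    have h := chain hr hxy
    clear hxy
    induction h with
    | refl =>
      intro m h1 h2
      exact ⟨x, le_antisymm h1 h2⟩
    | @tail b c _ hbc ih =>
      intro m h1 h2
      have h3 := hg.step b c hbc
      rcases Nat.lt_or_ge (g b) m with h4 | h4
      · exact ⟨c, by omega⟩
      · exact ih m h1 h4
  have hB : ∀ x y, Relation.EqvGen r x y → ∀ m, (g x ≤ m ∧ m ≤ g y ∨ g y ≤ m ∧ m ≤ g x) →
      m ∈ Set.range g := by
    intro x y h
    induction h with
    | rel x y hxy =>
      intro m hm
      have h1 := hg.mono x y hxy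
      rcases hm with ⟨h2, h3⟩ | ⟨h2, h3⟩
      · exact hA x y hxy m h2 h3
      · exact hA x y hxy m (by omega) (by omega)
    | refl x =>
      intro m hm
      exact ⟨x, by omega⟩
    | symm x y _ ih =>
      intro m hm
      exact ih m (by omega)
    | trans x y z _ _ ih1 ih2 =>
      intro m hm
      by_cases hc : g x ≤ m ∧ m ≤ g y ∨ g y ≤ m ∧ m ≤ g x
      · exact ih1 m hc
      · exact ih2 m (by omega)
  have hC : ∀ p m, 1 ≤ m → m ≤ g p → m ∈ Set.range g := by
    intro p m h1 h2
    obtain ⟨b, hb, hb1⟩ := hg.norm p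
    exact hB p b hb m (by omega)
  rcases isEmpty_or_nonempty (Fin n) with hE | hE
  · have h0 : Set.range g = ∅ := Set.range_eq_empty g
    rw [h0, Set.ncard_empty] at hk
    rw [h0, ← hk]
    simp
  · obtain ⟨p, hp⟩ := Finite.exists_max g
    have h1 : Set.range g = Set.Icc 1 (g p) := by
      ext m
      constructor
      · rintro ⟨q, rfl⟩
        exact ⟨hg.pos q, hp q⟩
      · rintro ⟨h1, h2⟩
        exact hC p m h1 h2
    have h2 : (Set.Icc 1 (g p)).ncard = g p := by
      rw [← Finset.coe_Icc, Set.ncard_coe_finset, Nat.card_Icc]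
      omega
    rw [h1, h2] at hk
    rw [h1, hk]

end Pool.Agent.P8H78.OD
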